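import Pool.Agent.W_MP_6a62c9_co.Main

open scoped Pointwise

namespace Pool.Agent.Results.MP_6a62c9_co.SublinearSubspaces

/-- `ω(X)`: the largest dimension of a projective subspace `W \ {0}` contained in `X`. -/
noncomputable def omega {n : ℕ} (X : Set (Fin n → ZMod 2)) : ℕ :=
  sSup {d : ℕ | ∃ W : Submodule (ZMod 2) (Fin n → ZMod 2),
    Module.finrank (ZMod 2) W = d ∧ (W : Set (Fin n → ZMod 2)) \ {0} ⊆ X}

/-- `α(X) = ω(F₂ⁿ \ X)`: the largest dimension of a projective subspace avoiding `X`. -/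
noncomputable def alpha {n : ℕ} (X : Set (Fin n → ZMod 2)) : ℕ := omega Xᶜ

theorem omega_lt {n k : ℕ} {X : Set (Fin n → ZMod 2)}
    (h : ∀ W : Submodule (ZMod 2) (Fin n → ZMod 2),
      (W : Set (Fin n → ZMod 2)) \ {0} ⊆ X → Module.finrank (ZMod 2) W < k) :
    omega X < k := by
  have hne : {d : ℕ | ∃ W : Submodule (ZMod 2) (Fin n → ZMod 2),
      Module.finrank (ZMod 2) W = d ∧ (W : Set (Fin n → ZMod 2)) \ {0} ⊆ X}.Nonempty :=
    ⟨0, ⊥, by simp, by simp⟩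
  have hbdd : BddAbove {d : ℕ | ∃ W : Submodule (ZMod 2) (Fin n → ZMod 2),
      Module.finrank (ZMod 2) W = d ∧ (W : Set (Fin n → ZMod 2)) \ {0} ⊆ X} := by
    refine ⟨k, ?_⟩
    rintro d ⟨W, rfl, hW⟩
    exact (h W hW).le
  obtain ⟨W, hd, hW⟩ := Nat.sSup_mem hne hbdd
  unfold omega
  rw [← hd]
  exact h W hW

/-- There is no linear bound: for every `C > 0` there are arbitrarily large `n` and sets
`X ⊆ F₂ⁿ` such that both `α(X) < C n` and `ω(X + X) < C n`. -/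
theorem result : ∀ C : ℝ, 0 < C → ∀ n₀ : ℕ, ∃ n : ℕ, n₀ ≤ n ∧ ∃ X : Set (Fin n → ZMod 2),
    (alpha X : ℝ) < C * n ∧ (omega (X + X) : ℝ) < C * n := by
  intro C hC n₀
  obtain ⟨K, hK⟩ := exists_nat_ge (1 / C)
  have hK1 : 1 ≤ K + 1 := by omega
  obtain ⟨k, _, hn, X, h1, h2⟩ := W_MP_6a62c9_co.main_construction (K + 1) hK1 n₀
  have hle : (k : ℝ) ≤ C * (((K + 1) * k : ℕ) : ℝ) := by
    have h3 : 1 ≤ C * (K + 1 : ℝ) := by
      rw [div_le_iff₀ hC] at hK
      nlinarith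
    have h4 : (0 : ℝ) ≤ k := Nat.cast_nonneg k
    push_cast
    nlinarith
  refine ⟨(K + 1) * k, hn, X, ?_, ?_⟩
  · have : (alpha X : ℝ) < k := by exact_mod_cast omega_lt h1
    linarith
  · have : (omega (X + X) : ℝ) < k := by exact_mod_cast omega_lt h2
    linarith

end Pool.Agent.Results.MP_6a62c9_co.SublinearSubspaces
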